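import Mathlib

open Set Function

namespace Pool.Agent.H27.Torus

variable {T : Type*} {E : Type*} [NormedAddCommGroup E] [NormedSpace ℝ E]
  {ι : Type*} {W : Type*}

/-- `Z` is invariant under the translation by `b i` outside the slab `|ξ_i| ≤ R`, for every `i`. -/
def InvOutside (b : Module.Basis ι ℝ E) (R : ℝ) (Z : T → E → W) : Prop :=
  (∀ (i : ι) (t : T) (x : E), R ≤ b.coord i x → Z t (x + b i) = Z t x) ∧
    ∀ (i : ι) (t : T) (x : E), b.coord i x ≤ -R → Z t (x - b i) = Z t x

lemma InvOutside.add_nsmul {b : Module.Basis ι ℝ E} {R : ℝ} {Z : T → E → W}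
    (h : InvOutside b R Z) (i : ι) (t : T) (k : ℕ) :
    ∀ x : E, R ≤ b.coord i x → Z t (x + (k : ℝ) • b i) = Z t x := by
  induction k with
  | zero => intro x _; simp
  | succ k ih =>
    intro x hx
    have h1 : x + ((k + 1 : ℕ) : ℝ) • b i = (x + (k : ℝ) • b i) + b i := by
      push_cast
      rw [add_smul, one_smul, add_assoc]
    have h2 : R ≤ b.coord i (x + (k : ℝ) • b i) := by
      rw [map_add, map_smul, Module.Basis.coord_apply b i (b i), b.repr_self]
      simp only [Finsupp.single_eq_same, smul_eq_mul, mul_one]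
      have : (0 : ℝ) ≤ k := Nat.cast_nonneg k
      linarith
    rw [h1, h.1 i t _ h2, ih x hx]

lemma InvOutside.sub_nsmul {b : Module.Basis ι ℝ E} {R : ℝ} {Z : T → E → W}
    (h : InvOutside b R Z) (i : ι) (t : T) (k : ℕ) :
    ∀ x : E, b.coord i x ≤ -R → Z t (x - (k : ℝ) • b i) = Z t x := by
  induction k with
  | zero => intro x _; simp
  | succ k ih =>
    intro x hx
    have h1 : x - ((k + 1 : ℕ) : ℝ) • b i = (x - (k : ℝ) • b i) - b i := by
      push_cast
      rw [add_smul, one_smul, sub_add_eq_sub_sub]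
    have h2 : b.coord i (x - (k : ℝ) • b i) ≤ -R := by
      rw [map_sub, map_smul, Module.Basis.coord_apply b i (b i), b.repr_self]
      simp only [Finsupp.single_eq_same, smul_eq_mul, mul_one]
      have : (0 : ℝ) ≤ k := Nat.cast_nonneg k
      linarith
    rw [h1, h.2 i t _ h2, ih x hx]

/-- Reduction of one coordinate. -/
lemma InvOutside.reduce_one {b : Module.Basis ι ℝ E} {R : ℝ} {Z : T → E → W}
    (h : InvOutside b R Z) (i : ι) (x : E) :
    ∃ y : E, (∀ j, j ≠ i → b.coord j y = b.coord j x) ∧ |b.coord i y| ≤ |R| + 1 ∧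
      ∀ t, Z t x = Z t y := by
  have hco : ∀ (c : ℝ) (j : ι), j ≠ i → b.coord j (x + c • b i) = b.coord j x := by
    intro c j hj
    rw [map_add, map_smul, Module.Basis.coord_apply b j (b i), b.repr_self,
      Finsupp.single_eq_of_ne hj]
    simp
  have hci : ∀ c : ℝ, b.coord i (x + c • b i) = b.coord i x + c := by
    intro c
    rw [map_add, map_smul, Module.Basis.coord_apply b i (b i), b.repr_self]
    simp
  have hR := le_abs_self R
  have hR' := neg_abs_le R
  rcases le_or_gt (b.coord i x) |R| with h1 | h1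
  · rcases le_or_gt (-|R|) (b.coord i x) with h2 | h2
    · exact ⟨x, fun _ _ => rfl, by rw [abs_le]; constructor <;> linarith, fun _ => rfl⟩
    · -- far on the left
      set k : ℕ := ⌊-(b.coord i x) - |R|⌋₊ with hk
      have hk1 : (k : ℝ) ≤ -(b.coord i x) - |R| := Nat.floor_le (by linarith)
      have hk2 : -(b.coord i x) - |R| < k + 1 := Nat.lt_floor_add_one _
      refine ⟨x + (k : ℝ) • b i, fun j hj => hco _ j hj, ?_, fun t => ?_⟩
      · rw [hci, abs_le]; constructor <;> linarith
      · have h3 := h.sub_nsmul i t k (x + (k : ℝ) • b i) (by rw [hci]; linarith)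
        rw [add_sub_cancel_right] at h3
        exact h3
  · set k : ℕ := ⌊b.coord i x - |R|⌋₊ with hk
    have hk1 : (k : ℝ) ≤ b.coord i x - |R| := Nat.floor_le (by linarith)
    have hk2 : b.coord i x - |R| < k + 1 := Nat.lt_floor_add_one _
    refine ⟨x + (-(k : ℝ)) • b i, fun j hj => hco _ j hj, ?_, fun t => ?_⟩
    · rw [hci, abs_le]; constructor <;> linarith
    · have h3 := h.add_nsmul i t k (x + (-(k : ℝ)) • b i) (by rw [hci]; linarith)
      rw [neg_smul, neg_add_cancel_right] at h3
      rw [neg_smul]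
      exact h3

/-- Reduction of finitely many coordinates. -/
lemma InvOutside.reduce {b : Module.Basis ι ℝ E} {R : ℝ} {Z : T → E → W}
    (h : InvOutside b R Z) (S : Finset ι) (x : E) :
    ∃ y : E, (∀ j ∉ S, b.coord j y = b.coord j x) ∧ (∀ j ∈ S, |b.coord j y| ≤ |R| + 1) ∧
      ∀ t, Z t x = Z t y := by
  classical
  induction S using Finset.induction_on with
  | empty => exact ⟨x, fun _ _ => rfl, by simp, fun _ => rfl⟩
  | insert i S hi ih =>
    obtain ⟨y, hy1, hy2, hy3⟩ := ih
    obtain ⟨z, hz1, hz2, hz3⟩ := h.reduce_one i y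
    refine ⟨z, fun j hj => ?_, fun j hj => ?_, fun t => (hy3 t).trans (hz3 t)⟩
    · rw [Finset.mem_insert, not_or] at hj
      rw [hz1 j hj.1, hy1 j hj.2]
    · rcases eq_or_ne j i with rfl | hji
      · exact hz2
      · rw [hz1 j hji]
        exact hy2 j ((Finset.mem_insert.1 hj).resolve_left hji)

/-- A continuous family, invariant under the basis translations outside slabs, is bounded. -/
theorem InvOutside.bounded [TopologicalSpace T] [CompactSpace T] [Fintype ι] {W : Type*} [SeminormedAddCommGroup W]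
    {b : Module.Basis ι ℝ E} {R : ℝ} {Z : T → E → W}
    (h : InvOutside b R Z) (hZ : Continuous (fun p : T × E => Z p.1 p.2)) :
    ∃ C : ℝ, ∀ t x, ‖Z t x‖ ≤ C := by
  have : FiniteDimensional ℝ E := Module.Basis.finiteDimensional_of_finite b
  -- the compact box
  set B : Set (ι → ℝ) := Set.pi univ fun _ => Icc (-(|R| + 1)) (|R| + 1) with hB
  have hBc : IsCompact B := isCompact_univ_pi fun _ => isCompact_Icc
  set L := b.equivFun.toContinuousLinearEquiv with hL
  have hKc : IsCompact ((fun c : ι → ℝ => L.symm c) '' B) := hBc.image L.symm.continuous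
  have hcomp : IsCompact ((univ : Set T) ×ˢ ((fun c : ι → ℝ => L.symm c) '' B)) :=
    isCompact_univ.prod hKc
  obtain ⟨C, hC⟩ := hcomp.exists_bound_of_continuousOn (f := fun p : T × E => Z p.1 p.2)
    hZ.continuousOn
  refine ⟨C, fun t x => ?_⟩
  obtain ⟨y, -, hy2, hy3⟩ := h.reduce Finset.univ x
  rw [hy3 t]
  refine hC (t, y) ⟨mem_univ _, ?_⟩
  refine ⟨L y, ?_, L.symm_apply_apply y⟩
  intro j _
  have := hy2 j (Finset.mem_univ j)
  rw [abs_le] at this
  exact this

end Pool.Agent.H27.Torus
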