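import Mathlib
import Pool.Agent.Helper17.SympBase
import Pool.Agent.Helper17.Isotopy
import Pool.Agent.Helper17.Potential
import Pool.Agent.H27.Torus.Bounded

open scoped ContDiff Topology
open Set Function MeasureTheory

namespace Pool.Agent.H27.Torus

open Pool.Agent.Helper17

/-- Averages of derivatives of bounded functions are small at large scales. -/
lemma abs_average_fderiv_le {E : Type*} [NormedAddCommGroup E] [NormedSpace ℝ E]
    [FiniteDimensional ℝ E] [MeasurableSpace E] [BorelSpace E] (μ : Measure E)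
    [μ.IsAddHaarMeasure] {ρ h : E → ℝ} (hρ : ContDiff ℝ ∞ ρ) (hρc : HasCompactSupport ρ)
    (hh : ContDiff ℝ 1 h) {C : ℝ} (hC : ∀ x, ‖h x‖ ≤ C) (v : E) {R : ℝ} (hR : 0 < R) :
    |∫ x, ρ x * fderiv ℝ h (R • x) v ∂μ| ≤ R⁻¹ * (C * ∫ x, ‖fderiv ℝ ρ x v‖ ∂μ) := by
  set g : E → ℝ := fun x => R⁻¹ * h (R • x) with hg
  have hgd : ContDiff ℝ 1 g := contDiff_const.mul (hh.comp (contDiff_const_smul R))
  have hfg : ∀ x, fderiv ℝ g x v = fderiv ℝ h (R • x) v := by
    intro x
    have h1 : HasFDerivAt (fun y : E => h (R • y))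
        ((fderiv ℝ h (R • x)).comp (R • ContinuousLinearMap.id ℝ E)) x :=
      (hh.differentiable (by simp) (R • x)).hasFDerivAt.comp x ((hasFDerivAt_id x).const_smul R)
    have h2 := (h1.const_mul R⁻¹).fderiv
    rw [hg, h2]
    simp only [_root_.smul_apply, ContinuousLinearMap.comp_apply,
      ContinuousLinearMap.id_apply, map_smul, smul_eq_mul]
    field_simp
  have hρ' : Continuous (fun x => fderiv ℝ ρ x v) :=
    (hρ.continuous_fderiv (by simp)).clm_apply continuous_const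
  have hgc : Continuous (fun x => fderiv ℝ g x v) :=
    (hgd.continuous_fderiv (by simp)).clm_apply continuous_const
  have hρ's : HasCompactSupport (fun x => fderiv ℝ ρ x v) :=
    (hρc.fderiv (𝕜 := ℝ)).comp_left (g := fun L : E →L[ℝ] ℝ => L v) (by simp)
  have i1 : Integrable (fun x => fderiv ℝ ρ x v * g x) μ :=
    (hρ'.mul hgd.continuous).integrable_of_hasCompactSupport hρ's.mul_right
  have i2 : Integrable (fun x => ρ x * fderiv ℝ g x v) μ :=
    (hρ.continuous.mul hgc).integrable_of_hasCompactSupport hρc.mul_right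
  have i3 : Integrable (fun x => ρ x * g x) μ :=
    (hρ.continuous.mul hgd.continuous).integrable_of_hasCompactSupport hρc.mul_right
  have d1 : ∀ x ∈ tsupport g, DifferentiableAt ℝ ρ x := fun x _ =>
    hρ.differentiable (by simp) x
  have d2 : ∀ x ∈ tsupport ρ, DifferentiableAt ℝ g x := fun x _ =>
    hgd.differentiable (by simp) x
  have key := integral_mul_fderiv_eq_neg_fderiv_mul_of_integrable (𝕜 := ℝ) (μ := μ) (f := ρ)
    (g := g) (v := v) i1 i2 i3 d1 d2
  simp only [hfg] at key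
  rw [key, abs_neg]
  have hn : |∫ x, fderiv ℝ ρ x v * g x ∂μ| ≤ ∫ x, ‖fderiv ℝ ρ x v * g x‖ ∂μ :=
    norm_integral_le_integral_norm (fun x => fderiv ℝ ρ x v * g x)
  refine hn.trans ?_
  rw [← integral_const_mul, ← integral_const_mul]
  refine integral_mono i1.norm ?_ fun x => ?_
  · exact ((hρ'.integrable_of_hasCompactSupport hρ's).norm.const_mul C).const_mul R⁻¹
  · simp only [norm_mul, hg]
    rw [Real.norm_of_nonneg (inv_pos.2 hR).le]
    have h1 := hC (R • x)
    have h2 : (0 : ℝ) ≤ R⁻¹ := (inv_pos.2 hR).le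
    have h3 : (0 : ℝ) ≤ ‖fderiv ℝ ρ x v‖ := norm_nonneg _
    calc ‖fderiv ℝ ρ x v‖ * (R⁻¹ * ‖h (R • x)‖) ≤ ‖fderiv ℝ ρ x v‖ * (R⁻¹ * C) := by gcongr
      _ = R⁻¹ * (C * ‖fderiv ℝ ρ x v‖) := by ring

variable {n : ℕ} {ι : Type*}

lemma InvOutside.of_periodic {E : Type*} [NormedAddCommGroup E] [NormedSpace ℝ E] {W : Type*}
    {b : Module.Basis ι ℝ E} {p : E → W} (hp : ∀ i x, p (x + b i) = p x) :
    InvOutside b 0 (fun (_ : Unit) => p) := by
  refine ⟨fun i _ x _ => hp i x, fun i _ x _ => ?_⟩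
  have := hp i (x - b i)
  rw [sub_add_cancel] at this
  exact this.symm

lemma fderiv_periodic {E : Type*} [NormedAddCommGroup E] [NormedSpace ℝ E] {W : Type*}
    [NormedAddCommGroup W] [NormedSpace ℝ W] {p : E → W} {e : E}
    (hp : ∀ x, p (x + e) = p x) (x : E) : fderiv ℝ p (x + e) = fderiv ℝ p x := by
  have h1 : (fun y => p (y + e)) = p := funext hp
  have h2 := fderiv_comp_add_right (𝕜 := ℝ) (f := p) (x := x) e
  rw [h1] at h2
  exact h2.symm

/-- The linear part of an equivariant symplectomorphism is symplectic. -/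
theorem symplectic_linear_part [Fintype ι] {b : Module.Basis ι ℝ (Phase n)} {f : Phase n → Phase n}
    (hf : ContDiff ℝ ∞ f)
    (hω : ∀ x u v, omegaStd (fderiv ℝ f x u) (fderiv ℝ f x v) = omegaStd u v)
    (A : Phase n →L[ℝ] Phase n) (hA : ∀ i x, f (x + b i) = f x + A (b i)) (u v : Phase n) :
    omegaStd (A u) (A v) = omegaStd u v := by
  classical
  set p : Phase n → Phase n := fun x => f x - A x with hp
  have hpd : ContDiff ℝ ∞ p := hf.sub A.contDiff
  have hper : ∀ i x, p (x + b i) = p x := by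
    intro i x
    simp only [hp, hA, map_add]
    abel
  have hperD : ∀ i x, fderiv ℝ p (x + b i) = fderiv ℝ p x := fun i x =>
    fderiv_periodic (hper i) x
  obtain ⟨C0, hC0⟩ := (InvOutside.of_periodic hper).bounded
    (hpd.continuous.comp continuous_snd)
  obtain ⟨C1, hC1⟩ := (InvOutside.of_periodic hperD).bounded
    ((hpd.continuous_fderiv (by simp)).comp continuous_snd)
  have hC0' : ∀ x, ‖p x‖ ≤ C0 := fun x => hC0 () x
  have hC1' : ∀ x, ‖fderiv ℝ p x‖ ≤ C1 := fun x => hC1 () x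
  have hC0nn : 0 ≤ C0 := (norm_nonneg _).trans (hC0' 0)
  have hC1nn : 0 ≤ C1 := (norm_nonneg _).trans (hC1' 0)
  have hDp : ContDiff ℝ ∞ (fderiv ℝ p) := hpd.fderiv_right (by simp)
  have hfD : ∀ x, fderiv ℝ f x = A + fderiv ℝ p x := by
    intro x
    have h1 : HasFDerivAt p (fderiv ℝ f x - A) x :=
      (hf.differentiable (by simp) x).hasFDerivAt.sub A.hasFDerivAt
    rw [h1.fderiv]
    abel
  -- the four primitives
  have hdir : ∀ w, ContDiff ℝ ∞ (fun x => fderiv ℝ p x w) := fun w =>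
    hDp.clm_apply contDiff_const
  have H1 : ∀ a w x, fderiv ℝ (fun x => omegaB n a (p x)) x w =
      omegaStd a (fderiv ℝ p x w) := by
    intro a w x
    have := ((omegaB n a).hasFDerivAt.comp x (hpd.differentiable (by simp) x).hasFDerivAt).fderiv
    rw [show (fun x => omegaB n a (p x)) = (omegaB n a) ∘ p from rfl, this]
    rfl
  have H2 : ∀ a w x, fderiv ℝ (fun x => omegaB n (fderiv ℝ p x a) (p x)) x w =
      omegaStd (fderiv ℝ (fderiv ℝ p) x w a) (p x) +
        omegaStd (fderiv ℝ p x a) (fderiv ℝ p x w) := by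
    intro a w x
    have e1 : HasFDerivAt (fun x => fderiv ℝ p x a) ((fderiv ℝ (fderiv ℝ p) x).flip a) x := by
      have := ((hDp.differentiable (by simp) x).hasFDerivAt).clm_apply (hasFDerivAt_const a x)
      simpa using this
    have e2 : HasFDerivAt (fun x => omegaB n (fderiv ℝ p x a))
        ((omegaB n).comp ((fderiv ℝ (fderiv ℝ p) x).flip a)) x :=
      (omegaB n).hasFDerivAt.comp x e1
    have e3 := (e2.clm_apply (hpd.differentiable (by simp) x).hasFDerivAt).fderiv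
    rw [e3]
    simp only [_root_.add_apply, ContinuousLinearMap.comp_apply,
      ContinuousLinearMap.flip_apply, omegaB_apply]
    ring
  have hsymm : ∀ x, fderiv ℝ (fderiv ℝ p) x v u = fderiv ℝ (fderiv ℝ p) x u v := fun x =>
    (hpd.contDiffAt.isSymmSndFDerivAt (by simp; exact WithTop.coe_le_coe.2 le_top)).eq v u
  -- the bump function
  obtain ⟨ρ, hρsupp, hρd, hρc, hρ0, hρint⟩ : ∃ ρ : Phase n → ℝ, (∀ x, 0 ≤ ρ x) ∧
      ContDiff ℝ ∞ ρ ∧ HasCompactSupport ρ ∧ (∃ x, ρ x ≠ 0) ∧ 0 < ∫ x, ρ x := by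
    let F : ContDiffBump (0 : Phase n) := ⟨1, 2, one_pos, one_lt_two⟩
    refine ⟨F, fun x => F.nonneg, F.contDiff, F.hasCompactSupport, ⟨0, ?_⟩, F.integral_pos⟩
    rw [F.one_of_mem_closedBall (by simp [F])]
    exact one_ne_zero
  set c : ℝ := omegaStd u v - omegaStd (A u) (A v) with hc
  -- pointwise identity
  have hpt : ∀ y, c = fderiv ℝ (fun x => omegaB n (A u) (p x)) y v
      - fderiv ℝ (fun x => omegaB n (A v) (p x)) y u
      + (1 / 2) * (fderiv ℝ (fun x => omegaB n (fderiv ℝ p x u) (p x)) y v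
      - fderiv ℝ (fun x => omegaB n (fderiv ℝ p x v) (p x)) y u) := by
    intro y
    have h0 := hω y u v
    rw [hfD y] at h0
    simp only [_root_.add_apply, omegaStd_add_left, omegaStd_add_right] at h0
    rw [H1, H1, H2, H2, hsymm y, hc]
    have s1 := omegaStd_swap (fderiv ℝ p y u) (A v)
    have s2 := omegaStd_swap (fderiv ℝ p y v) (fderiv ℝ p y u)
    linarith
  -- bounds
  have hb1 : ∀ a x, ‖omegaB n a (p x)‖ ≤ ‖a‖ * C0 := fun a x => by
    rw [omegaB_apply, Real.norm_eq_abs]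
    exact (abs_omegaStd_le _ _).trans (by gcongr; exact hC0' x)
  have hb2 : ∀ a x, ‖omegaB n (fderiv ℝ p x a) (p x)‖ ≤ C1 * ‖a‖ * C0 := fun a x => by
    rw [omegaB_apply, Real.norm_eq_abs]
    refine (abs_omegaStd_le _ _).trans ?_
    have h1 := (fderiv ℝ p x).le_opNorm a
    have h2 : ‖fderiv ℝ p x a‖ ≤ C1 * ‖a‖ := h1.trans (by gcongr; exact hC1' x)
    have h3 := hC0' x
    have h4 : 0 ≤ C1 * ‖a‖ := by positivity
    gcongr
  have hd1 : ∀ a, ContDiff ℝ 1 (fun x => omegaB n a (p x)) := fun a =>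
    (((omegaB n a).contDiff (n := ∞)).comp hpd).of_le (by simp)
  have hd2 : ∀ a, ContDiff ℝ 1 (fun x => omegaB n (fderiv ℝ p x a) (p x)) := fun a =>
    ((((omegaB n).contDiff (n := ∞)).comp (hdir a)).clm_apply hpd).of_le (by simp)
  set D : ℝ := (‖A u‖ * C0 * ∫ x, ‖fderiv ℝ ρ x v‖) + (‖A v‖ * C0 * ∫ x, ‖fderiv ℝ ρ x u‖)
    + (C1 * ‖u‖ * C0 * ∫ x, ‖fderiv ℝ ρ x v‖) + (C1 * ‖v‖ * C0 * ∫ x, ‖fderiv ℝ ρ x u‖) with hD
  have hRb : ∀ R : ℝ, 0 < R → |c| * (∫ x, ρ x) ≤ R⁻¹ * D := by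
    intro R hR
    have a1 := abs_average_fderiv_le volume hρd hρc (hd1 (A u)) (hb1 (A u)) v hR
    have a2 := abs_average_fderiv_le volume hρd hρc (hd1 (A v)) (hb1 (A v)) u hR
    have a3 := abs_average_fderiv_le volume hρd hρc (hd2 u) (hb2 u) v hR
    have a4 := abs_average_fderiv_le volume hρd hρc (hd2 v) (hb2 v) u hR
    have hint : ∀ (h : Phase n → ℝ) (w : Phase n), ContDiff ℝ 1 h →
        Integrable (fun x => ρ x * fderiv ℝ h (R • x) w) := by
      intro h w hh
      refine (hρd.continuous.mul ?_).integrable_of_hasCompactSupport hρc.mul_right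
      exact ((hh.continuous_fderiv (by simp)).comp (continuous_const_smul R)).clm_apply
        continuous_const
    have i1 := hint _ v (hd1 (A u))
    have i2 := hint _ u (hd1 (A v))
    have i3 := hint _ v (hd2 u)
    have i4 := hint _ u (hd2 v)
    have hsum : c * ∫ x, ρ x = (∫ x, ρ x * fderiv ℝ (fun x => omegaB n (A u) (p x)) (R • x) v)
        - (∫ x, ρ x * fderiv ℝ (fun x => omegaB n (A v) (p x)) (R • x) u)
        + (1 / 2) * ((∫ x, ρ x * fderiv ℝ (fun x => omegaB n (fderiv ℝ p x u) (p x)) (R • x) v)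
        - ∫ x, ρ x * fderiv ℝ (fun x => omegaB n (fderiv ℝ p x v) (p x)) (R • x) u) := by
      have i12 : Integrable (fun x =>
          ρ x * fderiv ℝ (fun x => omegaB n (A u) (p x)) (R • x) v -
          ρ x * fderiv ℝ (fun x => omegaB n (A v) (p x)) (R • x) u) := i1.sub i2
      have i34 : Integrable (fun x => (1 / 2 : ℝ) *
          (ρ x * fderiv ℝ (fun x => omegaB n (fderiv ℝ p x u) (p x)) (R • x) v -
          ρ x * fderiv ℝ (fun x => omegaB n (fderiv ℝ p x v) (p x)) (R • x) u)) :=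
        (i3.sub i4).const_mul _
      rw [← integral_sub i1 i2, ← integral_sub i3 i4, ← integral_const_mul,
        ← integral_const_mul, ← integral_add i12 i34]
      refine integral_congr_ae (Filter.Eventually.of_forall fun x => ?_)
      change c * ρ x = _
      rw [hpt (R • x)]
      ring
    have hρnn : 0 ≤ ∫ x, ρ x := hρint.le
    have habs : |c| * (∫ x, ρ x) = |c * ∫ x, ρ x| := by rw [abs_mul, abs_of_nonneg hρnn]
    rw [habs, hsum]
    set I1 := ∫ x, ρ x * fderiv ℝ (fun x => omegaB n (A u) (p x)) (R • x) v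
    set I2 := ∫ x, ρ x * fderiv ℝ (fun x => omegaB n (A v) (p x)) (R • x) u
    set I3 := ∫ x, ρ x * fderiv ℝ (fun x => omegaB n (fderiv ℝ p x u) (p x)) (R • x) v
    set I4 := ∫ x, ρ x * fderiv ℝ (fun x => omegaB n (fderiv ℝ p x v) (p x)) (R • x) u
    have t1 : |I1 - I2 + (1 / 2) * (I3 - I4)| ≤ |I1| + |I2| + (|I3| + |I4|) := by
      have := abs_add_le (I1 - I2) ((1 / 2) * (I3 - I4))
      have h2 := abs_sub I1 I2
      have h3 := abs_sub I3 I4
      rw [abs_mul, abs_of_nonneg (by norm_num : (0 : ℝ) ≤ 1 / 2)] at this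
      have h4 := abs_nonneg (I3 - I4)
      linarith
    refine t1.trans ?_
    have hexp : R⁻¹ * D = R⁻¹ * (‖A u‖ * C0 * ∫ x, ‖fderiv ℝ ρ x v‖) +
        R⁻¹ * (‖A v‖ * C0 * ∫ x, ‖fderiv ℝ ρ x u‖) +
        (R⁻¹ * (C1 * ‖u‖ * C0 * ∫ x, ‖fderiv ℝ ρ x v‖) +
        R⁻¹ * (C1 * ‖v‖ * C0 * ∫ x, ‖fderiv ℝ ρ x u‖)) := by rw [hD]; ring
    rw [hexp]
    exact add_le_add (add_le_add a1 a2) (add_le_add a3 a4)
  -- conclusion
  have hzero : |c| * (∫ x, ρ x) ≤ 0 := by
    have hlim : Filter.Tendsto (fun R : ℝ => R⁻¹ * D) Filter.atTop (𝓝 0) := by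
      have := (tendsto_inv_atTop_zero (𝕜 := ℝ)).mul_const D
      simpa using this
    refine ge_of_tendsto hlim ?_
    filter_upwards [Filter.eventually_gt_atTop (0 : ℝ)] with R hR
    exact hRb R hR
  have hc0 : |c| = 0 := by
    have h1 := abs_nonneg c
    by_contra hne
    have h2 : 0 < |c| := lt_of_le_of_ne h1 (Ne.symm hne)
    have := mul_pos h2 hρint
    linarith
  rw [abs_eq_zero, hc, sub_eq_zero] at hc0
  exact hc0.symm

end Pool.Agent.H27.Torus
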